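import Pool.Agent.X164.WM.SplitCop
set_option autoImplicit false

/-! Lifting coset progressions from cyclic groups to the integers. -/

namespace Pool.Agent.X164.CY

open Finset
open scoped Pointwise
open Pool.Agent.Y806.DF Pool.Agent.X164.MG Pool.Agent.X164.RD

/-- the real extension of a homomorphism `ℤ^d → ℤ` -/
def ext' {d : ℕ} (v : Fin d → ℤ) : (Fin d → ℝ) →ₗ[ℝ] ℝ where
  toFun x := ∑ i, (v i : ℝ) * x i
  map_add' x y := by simp only [Pi.add_apply, mul_add, Finset.sum_add_distrib]
  map_smul' c x := by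
    simp only [Pi.smul_apply, smul_eq_mul, RingHom.id_apply, Finset.mul_sum]
    exact Finset.sum_congr rfl fun i _ => by ring

/-- the map of the extra coordinate -/
def big {d : ℕ} (φ : (Fin d → ℤ) →+ ℤ) (h : ℤ) : (Fin (d + 1) → ℤ) →+ ℤ where
  toFun w := φ (fun i => w i.succ) + h * w 0
  map_zero' := by
    have : (fun i : Fin d => (0 : Fin (d + 1) → ℤ) i.succ) = 0 := rfl
    rw [this, map_zero]
    simp
  map_add' w w' := by
    have : (fun i : Fin d => (w + w') i.succ) = (fun i => w i.succ) + fun i => w' i.succ := rfl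
    rw [this, map_add]
    simp only [Pi.add_apply]
    ring

theorem big_apply {d : ℕ} (φ : (Fin d → ℤ) →+ ℤ) (h : ℤ) (w : Fin (d + 1) → ℤ) :
    big φ h w = φ (fun i => w i.succ) + h * w 0 := rfl

/-- the body of the extra coordinate -/
theorem body {d : ℕ} {B : Set (Fin d → ℝ)} (hB : Sym B) (φ : (Fin d → ℤ) →+ ℤ) {h : ℤ}
    (hh : h ≠ 0) {L : ℝ} (hL : 0 ≤ L) : ∃ B' : Set (Fin (d + 1) → ℝ), Sym B' ∧
      ∀ w : Fin (d + 1) → ℤ, w ∈ lat B' ↔
        (fun i => w i.succ) ∈ lat ((2 : ℝ) • B) ∧ |(big φ h w : ℝ)| ≤ L := by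
  set v : Fin d → ℤ := fun i => φ (Pi.single i 1) with hv
  have hφ : ∀ x : Fin d → ℤ, ((φ x : ℤ) : ℝ) = ext' v (re x) := by
    intro x
    rw [hom_eq_lin φ x]
    show _ = ∑ i, (v i : ℝ) * (x i : ℝ)
    push_cast
    refine Finset.sum_congr rfl fun i _ => ?_
    rw [smul_eq_mul]
    push_cast
    ring
  have hhR : (h : ℝ) ≠ 0 := by exact_mod_cast hh
  -- the linear map
  let Φ : ((Fin d → ℝ) × ℝ) →ₗ[ℝ] (Fin (d + 1) → ℝ) :=
    { toFun := fun p => Fin.cons ((p.2 - ext' v p.1) / h) p.1
      map_add' := by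
        intro p q
        funext i
        refine Fin.cases ?_ (fun i => ?_) i
        · simp only [Fin.cons_zero, Pi.add_apply, Prod.fst_add, Prod.snd_add, map_add]
          ring
        · simp only [Fin.cons_succ, Pi.add_apply, Prod.fst_add]
      map_smul' := by
        intro c p
        funext i
        refine Fin.cases ?_ (fun i => ?_) i
        · simp only [Fin.cons_zero, Pi.smul_apply, Prod.smul_fst, Prod.smul_snd, map_smul,
            smul_eq_mul, RingHom.id_apply]
          ring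
        · simp only [Fin.cons_succ, Pi.smul_apply, Prod.smul_fst, RingHom.id_apply] }
  have hΦ : Continuous Φ := LinearMap.continuous_of_finiteDimensional Φ
  have hB2 := hB.smul 2
  refine ⟨Φ '' (((2 : ℝ) • B) ×ˢ Set.Icc (-L) L), ⟨?_, ?_, ?_, ?_⟩, ?_⟩
  · exact (hB2.conv.prod (convex_Icc _ _)).linear_image Φ
  · exact (hB2.comp.prod isCompact_Icc).image hΦ
  · rintro _ ⟨p, ⟨h1, h2⟩, rfl⟩
    refine ⟨-p, ⟨hB2.symm _ h1, ?_⟩, map_neg Φ p⟩
    exact ⟨by have := h2.2; simp only [Prod.snd_neg]; linarith,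
      by have := h2.1; simp only [Prod.snd_neg]; linarith⟩
  · exact (hB2.ne.prod ⟨0, by constructor <;> linarith⟩).image _
  · intro w
    have e1 : (big φ h w : ℝ) = ext' v (re (fun i => w i.succ)) + h * (w 0 : ℝ) := by
      rw [big_apply, Int.cast_add, hφ, Int.cast_mul]
    constructor
    · rintro ⟨p, ⟨h1, h2⟩, e⟩
      have e2 : p.1 = re (fun i => w i.succ) := by
        funext i
        have := congrFun e i.succ
        exact this
      have e3 : (p.2 - ext' v p.1) / h = (w 0 : ℝ) := congrFun e 0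
      refine ⟨?_, ?_⟩
      · show re (fun i => w i.succ) ∈ (2 : ℝ) • B
        rw [← e2]
        exact h1
      · rw [e1, ← e2, ← e3]
        have : ext' v p.1 + (h : ℝ) * ((p.2 - ext' v p.1) / h) = p.2 := by
          field_simp
          ring
        rw [this]
        exact abs_le.2 h2
    · rintro ⟨h1, h2⟩
      refine ⟨(re (fun i => w i.succ), (big φ h w : ℝ)), ⟨h1, abs_le.1 h2⟩, ?_⟩
      funext i
      refine Fin.cases ?_ (fun i => ?_) i
      · show ((big φ h w : ℝ) - ext' v (re fun i => w i.succ)) / h = (w 0 : ℝ)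
        rw [e1]
        field_simp
        ring
      · rfl

/-- a popular fibre -/
theorem fibre {α β : Type*} [DecidableEq α] [DecidableEq β] (A : Finset α) (R : Finset β)
    (P : Finset (α × β)) (hP : P ⊆ A ×ˢ R) (hA : A.Nonempty) {t : ℕ}
    (h : (A ×ˢ R).card ≤ t * P.card) :
    R.card ≤ 2 * t * (R.filter (fun y => A.card ≤ 2 * t * (A.filter (fun a => (a, y) ∈ P)).card)).card := by
  set Y := R.filter (fun y => A.card ≤ 2 * t * (A.filter (fun a => (a, y) ∈ P)).card) with hY
  have h1 : P.card = ∑ y ∈ R, (A.filter (fun a => (a, y) ∈ P)).card := by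
    have : P = R.biUnion (fun y => (A.filter (fun a => (a, y) ∈ P)).image (fun a => (a, y))) := by
      ext ⟨a, y⟩
      simp only [Finset.mem_biUnion, Finset.mem_image, Finset.mem_filter, Prod.mk.injEq]
      constructor
      · intro hm
        have h2 := Finset.mem_product.1 (hP hm)
        exact ⟨y, h2.2, a, ⟨h2.1, hm⟩, rfl, rfl⟩
      · rintro ⟨y', _, a', ⟨_, hm⟩, rfl, rfl⟩
        exact hm
    conv_lhs => rw [this]
    rw [Finset.card_biUnion]
    · refine Finset.sum_congr rfl fun y _ => ?_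
      exact Finset.card_image_of_injective _ (fun a a' e => (Prod.mk.inj e).1)
    · intro y _ y' _ hyy
      rw [Function.onFun, Finset.disjoint_left]
      rintro ⟨a, z⟩ h3 h4
      obtain ⟨b, -, e⟩ := Finset.mem_image.1 h3
      obtain ⟨b', -, e'⟩ := Finset.mem_image.1 h4
      exact hyy ((Prod.mk.inj e).2.trans (Prod.mk.inj e').2.symm)
  have h2 : 2 * t * P.card ≤ R.card * A.card + 2 * t * (Y.card * A.card) := by
    rw [h1, ← Finset.sum_filter_add_sum_filter_not R
      (fun y => A.card ≤ 2 * t * (A.filter (fun a => (a, y) ∈ P)).card), mul_add, add_comm]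
    refine add_le_add ?_ ?_
    · rw [Finset.mul_sum]
      calc ∑ y ∈ R.filter (fun y => ¬ A.card ≤ 2 * t * (A.filter (fun a => (a, y) ∈ P)).card),
            2 * t * (A.filter (fun a => (a, y) ∈ P)).card
          ≤ ∑ _y ∈ R.filter (fun y => ¬ A.card ≤ 2 * t * (A.filter (fun a => (a, y) ∈ P)).card),
              A.card := by
            refine Finset.sum_le_sum fun y hy => ?_
            exact (not_le.1 (Finset.mem_filter.1 hy).2).le
        _ ≤ R.card * A.card := by
            rw [Finset.sum_const, smul_eq_mul]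
            exact Nat.mul_le_mul_right _ (Finset.card_le_card (Finset.filter_subset _ _))
    · refine Nat.mul_le_mul_left _ ?_
      calc ∑ y ∈ Y, (A.filter (fun a => (a, y) ∈ P)).card ≤ ∑ _y ∈ Y, A.card :=
            Finset.sum_le_sum fun y _ => Finset.card_le_card (Finset.filter_subset _ _)
        _ = Y.card * A.card := by rw [Finset.sum_const, smul_eq_mul]
  rw [Finset.card_product] at h
  have hA0 : 0 < A.card := hA.card_pos
  have h3 : A.card * R.card ≤ A.card * (2 * t * Y.card) := by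
    have h4 : 2 * (A.card * R.card) ≤ 2 * t * P.card := by
      rw [mul_assoc]
      exact Nat.mul_le_mul_left _ h
    have e1 : 2 * t * (Y.card * A.card) = A.card * (2 * t * Y.card) := by ring
    have e2 : R.card * A.card = A.card * R.card := mul_comm _ _
    rw [e1, e2] at h2
    omega
  exact Nat.le_of_mul_le_mul_left h3 hA0

set_option maxHeartbeats 4000000 in
/-- **lifting a covering of a nearly dense set in a cyclic group** -/
theorem lift_cyc {N L M : ℕ} (hL : 1 ≤ L) (hM : 1 ≤ M) (hN : 8 * L * M ≤ N) {c : ℤ} {A : Finset ℤ}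
    (hA : A.Nonempty) (hAL : ∀ a ∈ A, c ≤ a ∧ a < c + L) {T : Finset (ZMod N)} {d : ℕ}
    {B : Set (Fin d → ℝ)} {ψ : (Fin d → ℤ) →+ ZMod N} {H : AddSubgroup (ZMod N)} (hB : Sym B)
    (hvol : (lat B).ncard * Nat.card H ≤ A.card * M)
    (hcov : Cov B ψ H T ((A ×ˢ Finset.range M).image
      (fun p : ℤ × ℕ => (((p.1 - c) + 4 * L * p.2 : ℤ) : ZMod N)))) :
    ∃ (B' : Set (Fin (d + 1) → ℝ)) (ψ' : (Fin (d + 1) → ℤ) →+ ℤ) (t : ℤ) (F : Finset ℤ),
      Sym B' ∧ F ⊆ A ∧ F.Nonempty ∧ A.card ≤ 2 * T.card * F.card ∧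
      (lat B').ncard ≤ 2 * T.card * 16 ^ d * A.card ∧ ∀ a ∈ F, ∃ w ∈ lat B', a = t + ψ' w := by
  classical
  have hN0 : 0 < N := lt_of_lt_of_le (by positivity) hN
  have : NeZero N := ⟨hN0.ne'⟩
  set q : ℤ →+ ZMod N := Int.castAddHom (ZMod N) with hq
  have hqs : Function.Surjective q := ZMod.intCast_surjective
  obtain ⟨φ, hφ⟩ := lift_hom q hqs ψ
  obtain ⟨h₀, hh₀⟩ := Int.subgroup_cyclic (H.comap q)
  have hmem : ∀ z : ℤ, q z ∈ H ↔ ∃ k : ℤ, z = h₀ * k := by
    intro z
    have h1 : q z ∈ H ↔ z ∈ H.comap q := Iff.rfl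
    rw [h1, hh₀, AddSubgroup.mem_closure_singleton]
    constructor
    · rintro ⟨k, rfl⟩
      exact ⟨k, by rw [smul_eq_mul, mul_comm]⟩
    · rintro ⟨k, rfl⟩
      exact ⟨k, by rw [smul_eq_mul, mul_comm]⟩
  have hh0 : h₀ ≠ 0 := by
    intro h0
    have h1 : q (N : ℤ) ∈ H := by
      have : q (N : ℤ) = 0 := by
        show ((N : ℤ) : ZMod N) = 0
        simp
      rw [this]
      exact H.zero_mem
    obtain ⟨k, hk⟩ := (hmem _).1 h1
    rw [h0, zero_mul] at hk
    have : N = 0 := by exact_mod_cast hk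
    omega
  set g : ℤ × ℕ → ℤ := fun p => (p.1 - c) + 4 * L * p.2 with hg
  have hgq : ∀ p : ℤ × ℕ, q (g p) = (((p.1 - c) + 4 * L * p.2 : ℤ) : ZMod N) := fun p => rfl
  have hfin : (lat B).Finite := lat_finite hB.comp.isBounded
  -- the popular translate
  obtain ⟨t, ht, hPt⟩ := pigeon T (A ×ˢ Finset.range M) (A ×ˢ Finset.range M)
    (hA.product (Finset.nonempty_range_iff.2 (by omega)))
    (fun t p => ∃ x ∈ lat B, ∃ h ∈ H, q (g p) = t + ψ x + h) subset_rfl (by
      intro p hp
      obtain ⟨t, ht, x, hx, h, hh, e⟩ := hcov _ (Finset.mem_image_of_mem _ hp)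
      exact ⟨t, ht, x, hx, h, hh, e⟩)
  set P := (A ×ˢ Finset.range M).filter
    (fun p => ∃ x ∈ lat B, ∃ h ∈ H, q (g p) = t + ψ x + h) with hP
  obtain ⟨t₀, rfl⟩ := hqs t
  have hfib := fibre A (Finset.range M) P (Finset.filter_subset _ _) hA hPt
  set Y := (Finset.range M).filter
    (fun y => A.card ≤ 2 * T.card * (A.filter (fun a => (a, y) ∈ P)).card) with hY
  rw [Finset.card_range] at hfib
  have hYne : Y.Nonempty := by
    rw [← Finset.card_pos]
    by_contra h0
    have : Y.card = 0 := by omega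
    rw [this, mul_zero] at hfib
    omega
  have hFne : ∀ y ∈ Y, (A.filter (fun a => (a, y) ∈ P)).Nonempty := by
    intro y hy
    have h1 := (Finset.mem_filter.1 hy).2
    rw [← Finset.card_pos]
    by_contra h0
    have h2 : (A.filter (fun a => (a, y) ∈ P)).card = 0 := by omega
    rw [h2, mul_zero] at h1
    have := hA.card_pos
    omega
  -- lifts of the points of `P`
  have hlift : ∀ p ∈ P, ∃ x ∈ lat B, ∃ z : ℤ, g p = t₀ + φ x + h₀ * z := by
    intro p hp
    obtain ⟨x, hx, h, hh, e⟩ := (Finset.mem_filter.1 hp).2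
    have h1 : q (g p - t₀ - φ x) ∈ H := by
      have : q (g p - t₀ - φ x) = h := by
        rw [map_sub, map_sub, hφ, e]
        abel
      rw [this]
      exact hh
    obtain ⟨z, hz⟩ := (hmem _).1 h1
    exact ⟨x, hx, z, by linarith⟩
  choose! X hX Z hZ using hlift
  choose! α hα using hFne
  have hαP : ∀ y ∈ Y, (α y, y) ∈ P := fun y hy => (Finset.mem_filter.1 (hα y hy)).2
  have hαA : ∀ y ∈ Y, α y ∈ A := fun y hy => (Finset.mem_filter.1 (hα y hy)).1
  obtain ⟨B', hB', hlatB'⟩ := body hB φ hh0 (L := (L : ℝ)) (Nat.cast_nonneg _)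
  obtain ⟨y₀, hy₀⟩ := hYne
  have hfin' : (lat B').Finite := lat_finite hB'.comp.isBounded
  have hlat' : ∀ w ∈ lat B', |big φ h₀ w| ≤ L := by
    intro w hw
    have := ((hlatB' w).1 hw).2
    exact_mod_cast this
  have hone : ∀ x ∈ lat B, x ∈ lat ((1 : ℝ) • B) := by
    intro x hx
    rw [one_smul]
    exact hx
  have hhcomap : ∀ z : ℤ, q (h₀ * z) ∈ H := fun z => (hmem _).2 ⟨z, rfl⟩
  refine ⟨B', big φ h₀, α y₀, A.filter (fun a => (a, y₀) ∈ P), hB', Finset.filter_subset _ _,
    ⟨_, hα y₀ hy₀⟩, (Finset.mem_filter.1 hy₀).2, ?_, ?_⟩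
  · -- the number of the integer points
    let f : ℕ × (Fin (d + 1) → ℤ) → (Fin d → ℤ) × ZMod N := fun s =>
      (X (α s.1, s.1) + (fun i => s.2 i.succ), q (h₀ * (Z (α s.1, s.1) + s.2 0)))
    have hmaps : ∀ s ∈ Y ×ˢ hfin'.toFinset, f s ∈
        (((hB.finite 4).toFinset : Finset (Fin d → ℤ)) ×ˢ
          (Set.toFinite (H : Set (ZMod N))).toFinset : Finset ((Fin d → ℤ) × ZMod N)) := by
      intro s hs
      obtain ⟨hs1, hs2⟩ := Finset.mem_product.1 hs
      rw [Set.Finite.mem_toFinset] at hs2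
      rw [Finset.mem_product, Set.Finite.mem_toFinset, Set.Finite.mem_toFinset]
      refine ⟨?_, hhcomap _⟩
      have h1 := hB.add (by norm_num) (by norm_num) (hone _ (hX _ (hαP _ hs1))) ((hlatB' _).1 hs2).1
      exact lat_mono (hB.mono (by norm_num) (by norm_num)) h1
    have hinj : Set.InjOn f (Y ×ˢ hfin'.toFinset : Finset _) := by
      intro s hs s' hs' e
      obtain ⟨hs1, hs2⟩ := Finset.mem_product.1 (Finset.mem_coe.1 hs)
      obtain ⟨hs1', hs2'⟩ := Finset.mem_product.1 (Finset.mem_coe.1 hs')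
      rw [Set.Finite.mem_toFinset] at hs2 hs2'
      have e1 : X (α s.1, s.1) + (fun i => s.2 i.succ) = X (α s'.1, s'.1) + (fun i => s'.2 i.succ) :=
        (Prod.mk.inj e).1
      have e2 : q (h₀ * (Z (α s.1, s.1) + s.2 0)) = q (h₀ * (Z (α s'.1, s'.1) + s'.2 0)) :=
        (Prod.mk.inj e).2
      have v1 : g (α s.1, s.1) + big φ h₀ s.2 = t₀ + φ (X (α s.1, s.1) + (fun i => s.2 i.succ)) +
          h₀ * (Z (α s.1, s.1) + s.2 0) := by
        rw [hZ _ (hαP _ hs1), big_apply, map_add]
        ring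
      have v2 : g (α s'.1, s'.1) + big φ h₀ s'.2 =
          t₀ + φ (X (α s'.1, s'.1) + (fun i => s'.2 i.succ)) +
          h₀ * (Z (α s'.1, s'.1) + s'.2 0) := by
        rw [hZ _ (hαP _ hs1'), big_apply, map_add]
        ring
      have b1 := abs_le.1 (hlat' _ hs2)
      have b2 := abs_le.1 (hlat' _ hs2')
      have c1 := hAL _ (hαA _ hs1)
      have c2 := hAL _ (hαA _ hs1')
      have m1 : s.1 < M := Finset.mem_range.1 (Finset.mem_filter.1 hs1).1
      have m2 : s'.1 < M := Finset.mem_range.1 (Finset.mem_filter.1 hs1').1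
      have hLZ : (1 : ℤ) ≤ L := by exact_mod_cast hL
      have u1 : (0 : ℤ) ≤ 4 * L * (s.1 : ℤ) := by positivity
      have u2 : (0 : ℤ) ≤ 4 * L * (s'.1 : ℤ) := by positivity
      have w1 : 4 * (L : ℤ) * (s.1 : ℤ) ≤ 4 * L * (M - 1) :=
        mul_le_mul_of_nonneg_left (by omega) (by positivity)
      have w2 : 4 * (L : ℤ) * (s'.1 : ℤ) ≤ 4 * L * (M - 1) :=
        mul_le_mul_of_nonneg_left (by omega) (by positivity)
      have hNZ : 8 * (L : ℤ) * M ≤ N := by exact_mod_cast hN
      have hLM : (L : ℤ) ≤ L * M := by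
        have : (1 : ℤ) ≤ M := by exact_mod_cast hM
        nlinarith
      -- the two values agree
      have hval : g (α s.1, s.1) + big φ h₀ s.2 = g (α s'.1, s'.1) + big φ h₀ s'.2 := by
        have h1 : q (g (α s.1, s.1) + big φ h₀ s.2) = q (g (α s'.1, s'.1) + big φ h₀ s'.2) := by
          rw [v1, v2, e1, map_add q _ (h₀ * (Z (α s.1, s.1) + s.2 0)),
            map_add q _ (h₀ * (Z (α s'.1, s'.1) + s'.2 0)), e2]
        have h2 : (N : ℤ) ∣ (g (α s'.1, s'.1) + big φ h₀ s'.2) - (g (α s.1, s.1) + big φ h₀ s.2) :=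
          (ZMod.intCast_eq_intCast_iff_dvd_sub _ _ _).1 h1
        have h3 := Int.eq_zero_of_abs_lt_dvd h2 (by
          rw [abs_lt]
          simp only [hg]
          constructor <;> nlinarith)
        linarith
      have hyy : s.1 = s'.1 := by
        simp only [hg] at hval
        by_contra hne
        rcases Nat.lt_or_gt_of_ne hne with hlt | hlt
        · have : 4 * (L : ℤ) * (s.1 + 1) ≤ 4 * L * s'.1 :=
            mul_le_mul_of_nonneg_left (by omega) (by positivity)
          nlinarith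
        · have : 4 * (L : ℤ) * (s'.1 + 1) ≤ 4 * L * s.1 :=
            mul_le_mul_of_nonneg_left (by omega) (by positivity)
          nlinarith
      have hww : s.2 = s'.2 := by
        rw [← hyy] at e1 v2 hval
        have e3 : (fun i : Fin d => s.2 i.succ) = fun i => s'.2 i.succ := add_left_cancel e1
        have e4 : h₀ * (Z (α s.1, s.1) + s.2 0) = h₀ * (Z (α s.1, s.1) + s'.2 0) := by
          have e5 := v1.symm.trans (hval.trans v2)
          rw [e3] at e5
          linarith
        have e6 := mul_left_cancel₀ hh0 e4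
        funext i
        refine Fin.cases ?_ (fun i => ?_) i
        · linarith
        · exact congrFun e3 i
      exact Prod.ext hyy hww
    have hcard := Finset.card_le_card_of_injOn f hmaps hinj
    rw [Finset.card_product, Finset.card_product] at hcard
    have k1 : hfin'.toFinset.card = (lat B').ncard := (Set.ncard_eq_toFinset_card _ hfin').symm
    have k2 : (hB.finite 4).toFinset.card ≤ 16 ^ d * (lat B).ncard := by
      have h1 := num_pow hB (t := 1) (by norm_num) 2
      have h2 : num B 1 = (lat B).ncard := by rw [num, one_smul]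
      have h3 : num B (2 ^ 2 * 1) = (hB.finite 4).toFinset.card := by
        rw [← Set.ncard_eq_toFinset_card _ (hB.finite 4), num]
        norm_num
      rw [h2, h3] at h1
      norm_num at h1
      exact h1
    have k3 : (Set.toFinite (H : Set (ZMod N))).toFinset.card = Nat.card H := by
      rw [← Set.ncard_eq_toFinset_card, ← Nat.card_coe_set_eq]
      rfl
    rw [k1, k3] at hcard
    have k4 : Y.card * (lat B').ncard ≤ 16 ^ d * (A.card * M) := by
      calc Y.card * (lat B').ncard ≤ (hB.finite 4).toFinset.card * Nat.card H := hcard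
        _ ≤ (16 ^ d * (lat B).ncard) * Nat.card H := Nat.mul_le_mul_right _ k2
        _ = 16 ^ d * ((lat B).ncard * Nat.card H) := by ring
        _ ≤ _ := Nat.mul_le_mul_left _ hvol
    have k5 : M * (lat B').ncard ≤ M * (2 * T.card * 16 ^ d * A.card) := by
      calc M * (lat B').ncard ≤ (2 * T.card * Y.card) * (lat B').ncard :=
            Nat.mul_le_mul_right _ hfib
        _ = 2 * T.card * (Y.card * (lat B').ncard) := by ring
        _ ≤ 2 * T.card * (16 ^ d * (A.card * M)) := Nat.mul_le_mul_left _ k4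
        _ = _ := by ring
    exact Nat.le_of_mul_le_mul_left k5 (by omega)
  · intro a ha
    obtain ⟨haA, haP⟩ := Finset.mem_filter.1 ha
    have hp0 := hαP y₀ hy₀
    have c1 := hAL _ haA
    have c2 := hAL _ (hαA _ hy₀)
    set w : Fin (d + 1) → ℤ := Fin.cons (Z (a, y₀) - Z (α y₀, y₀)) (X (a, y₀) - X (α y₀, y₀))
      with hw
    have hw1 : (fun i : Fin d => w i.succ) = X (a, y₀) - X (α y₀, y₀) := by
      funext i
      rfl
    have hw2 : w 0 = Z (a, y₀) - Z (α y₀, y₀) := rfl
    have hbig : big φ h₀ w = a - α y₀ := by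
      have e1 := hZ _ haP
      have e2 := hZ _ hp0
      simp only [hg] at e1 e2
      rw [big_apply, hw1, hw2, map_sub]
      linarith
    refine ⟨w, (hlatB' w).2 ⟨?_, ?_⟩, by rw [hbig]; ring⟩
    · rw [hw1]
      have h1 := hB.sub (by norm_num) (by norm_num) (hone _ (hX _ haP)) (hone _ (hX _ hp0))
      norm_num at h1
      exact h1
    · rw [hbig]
      have : |a - α y₀| ≤ (L : ℤ) := by
        rw [abs_le]
        constructor <;> linarith
      exact_mod_cast this

end Pool.Agent.X164.CY
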