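import Pool.Agent.X164.CY.Lift
set_option autoImplicit false

/-! From nearly dense subsets of cyclic groups to the integers. -/

namespace Pool.Agent.X164.CY

open Finset Filter
open scoped Pointwise
open Pool.Agent.Y806.DF Pool.Agent.X164.MG Pool.Agent.X164.RD

theorem image_card {N L M : ℕ} (hL : 1 ≤ L) (hM : 1 ≤ M) (hN : 8 * L * M ≤ N) {c : ℤ}
    {A : Finset ℤ} (hAL : ∀ a ∈ A, c ≤ a ∧ a < c + L) :
    ((A ×ˢ Finset.range M).image
      (fun p : ℤ × ℕ => (((p.1 - c) + 4 * L * p.2 : ℤ) : ZMod N))).card = A.card * M := by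
  have h : Set.InjOn (fun p : ℤ × ℕ => (((p.1 - c) + 4 * L * p.2 : ℤ) : ZMod N))
      (A ×ˢ Finset.range M : Finset (ℤ × ℕ)) := by
    intro p hp p' hp' e
    obtain ⟨h1, h2⟩ := Finset.mem_product.1 (Finset.mem_coe.1 hp)
    obtain ⟨h1', h2'⟩ := Finset.mem_product.1 (Finset.mem_coe.1 hp')
    have c1 := hAL _ h1
    have c2 := hAL _ h1'
    have m1 : p.2 < M := Finset.mem_range.1 h2
    have m2 : p'.2 < M := Finset.mem_range.1 h2'
    have hLZ : (1 : ℤ) ≤ L := by exact_mod_cast hL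
    have u1 : (0 : ℤ) ≤ 4 * L * (p.2 : ℤ) := by positivity
    have u2 : (0 : ℤ) ≤ 4 * L * (p'.2 : ℤ) := by positivity
    have w1 : 4 * (L : ℤ) * (p.2 : ℤ) ≤ 4 * L * (M - 1) :=
      mul_le_mul_of_nonneg_left (by omega) (by positivity)
    have w2 : 4 * (L : ℤ) * (p'.2 : ℤ) ≤ 4 * L * (M - 1) :=
      mul_le_mul_of_nonneg_left (by omega) (by positivity)
    have hNZ : 8 * (L : ℤ) * M ≤ N := by exact_mod_cast hN
    have hLM : (L : ℤ) ≤ L * M := by
      have : (1 : ℤ) ≤ M := by exact_mod_cast hM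
      nlinarith
    have h3 : (N : ℤ) ∣ ((p'.1 - c) + 4 * L * p'.2) - ((p.1 - c) + 4 * L * p.2) :=
      (ZMod.intCast_eq_intCast_iff_dvd_sub _ _ _).1 e
    have h4 := Int.eq_zero_of_abs_lt_dvd h3 (by
      rw [abs_lt]
      constructor <;> nlinarith)
    have hyy : p.2 = p'.2 := by
      by_contra hne
      rcases Nat.lt_or_gt_of_ne hne with hlt | hlt
      · have : 4 * (L : ℤ) * (p.2 + 1) ≤ 4 * L * p'.2 :=
          mul_le_mul_of_nonneg_left (by omega) (by positivity)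
        nlinarith
      · have : 4 * (L : ℤ) * (p'.2 + 1) ≤ 4 * L * p.2 :=
          mul_le_mul_of_nonneg_left (by omega) (by positivity)
        nlinarith
    refine Prod.ext ?_ hyy
    rw [hyy] at h4
    linarith
  rw [Finset.card_image_of_injOn h, Finset.card_product, Finset.card_range]

theorem image_add_card {N L M : ℕ} {c : ℤ} (A : Finset ℤ) :
    (((A ×ˢ Finset.range M).image
      (fun p : ℤ × ℕ => (((p.1 - c) + 4 * L * p.2 : ℤ) : ZMod N))) +
      ((A ×ˢ Finset.range M).image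
      (fun p : ℤ × ℕ => (((p.1 - c) + 4 * L * p.2 : ℤ) : ZMod N)))).card ≤
      (A + A).card * (2 * M) := by
  have h : ((A ×ˢ Finset.range M).image
      (fun p : ℤ × ℕ => (((p.1 - c) + 4 * L * p.2 : ℤ) : ZMod N))) +
      ((A ×ˢ Finset.range M).image
      (fun p : ℤ × ℕ => (((p.1 - c) + 4 * L * p.2 : ℤ) : ZMod N))) ⊆
      ((A + A) ×ˢ Finset.range (2 * M)).image
      (fun p : ℤ × ℕ => (((p.1 - c - c) + 4 * L * p.2 : ℤ) : ZMod N)) := by
    intro z hz
    obtain ⟨x, hx, y, hy, rfl⟩ := Finset.mem_add.1 hz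
    obtain ⟨p, hp, rfl⟩ := Finset.mem_image.1 hx
    obtain ⟨p', hp', rfl⟩ := Finset.mem_image.1 hy
    obtain ⟨h1, h2⟩ := Finset.mem_product.1 hp
    obtain ⟨h1', h2'⟩ := Finset.mem_product.1 hp'
    rw [Finset.mem_range] at h2 h2'
    refine Finset.mem_image.2 ⟨(p.1 + p'.1, p.2 + p'.2), Finset.mem_product.2
      ⟨Finset.add_mem_add h1 h1', Finset.mem_range.2 (by show p.2 + p'.2 < 2 * M; omega)⟩, ?_⟩
    push_cast
    ring
  calc _ ≤ _ := Finset.card_le_card h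
    _ ≤ ((A + A) ×ˢ Finset.range (2 * M)).card := Finset.card_image_le
    _ = _ := by rw [Finset.card_product, Finset.card_range]

set_option maxHeartbeats 4000000 in
/-- **nearly dense subsets of cyclic groups decide Q1 for the integers** -/
theorem int_of_cyc {𝒩 : Set ℕ} (h𝒩 : ∀ b : ℕ, ∃ N ∈ 𝒩, b < N) {ω : ℕ → ℝ}
    (hω : Tendsto ω atTop atTop) {C : ℝ}
    (hC : ∀ N ∈ 𝒩, ∀ (K : ℝ) (S : Finset (ZMod N)), S.Nonempty → (N : ℝ) ≤ ω N * S.card →
      ((S + S).card : ℝ) ≤ K * S.card → Concl C K S) :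
    ∃ C' : ℝ, ∀ (K : ℝ) (A : Finset ℤ), A.Nonempty → ((A + A).card : ℝ) ≤ K * A.card →
      Concl C' K A := by
  classical
  obtain ⟨n, hn1, hnC, hn⟩ := nat_const C
  set n' : ℕ := 16 * n ^ 2 * 4 ^ (8 * n) with hn'
  have hn'1 : 1 ≤ n' := by
    have h1 : 1 ≤ n ^ 2 := Nat.one_le_pow _ _ hn1
    have h2 : 1 ≤ 4 ^ (8 * n) := Nat.one_le_pow _ _ (by norm_num)
    rw [hn']
    nlinarith
  have h8n : 8 * n ≤ n' := by
    have h1 : 8 * n < 4 ^ (8 * n) := Nat.lt_pow_self (by norm_num)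
    have h2 : 1 ≤ 16 * n ^ 2 := by nlinarith
    rw [hn']
    nlinarith
  refine ⟨((5000 * n' ^ 5000 : ℕ) : ℝ), fun K A hA hK => ?_⟩
  have hK1 := one_le_K hA hK
  have hK0 : 0 < K := by linarith
  -- the interval
  set c : ℤ := A.min' hA with hc
  set L : ℕ := (A.max' hA - c).toNat + 1 with hL
  have hL1 : 1 ≤ L := by omega
  have hAL : ∀ a ∈ A, c ≤ a ∧ a < c + L := by
    intro a ha
    have h1 : c ≤ a := A.min'_le a ha
    have h2 : a ≤ A.max' hA := A.le_max' a ha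
    refine ⟨h1, ?_⟩
    rw [hL]
    push_cast
    omega
  obtain ⟨b, hb⟩ := eventually_atTop.1 (hω.eventually_ge_atTop (16 * (L : ℝ)))
  obtain ⟨N, hN𝒩, hNb⟩ := h𝒩 (max b (8 * L))
  have hNb1 : b ≤ N := (le_max_left _ _).trans hNb.le
  have hNL : 8 * L ≤ N := (le_max_right _ _).trans hNb.le
  set M : ℕ := N / (8 * L) with hM
  have hM1 : 1 ≤ M := (Nat.one_le_div_iff (by positivity)).2 hNL
  have hMN : 8 * L * M ≤ N := Nat.mul_div_le N (8 * L)
  have hMN2 : N ≤ 16 * L * M := by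
    have h1 : N < 8 * L * (M + 1) := Nat.lt_mul_div_succ N (by positivity)
    have h2 : 8 * L * (M + 1) ≤ 8 * L * (2 * M) := Nat.mul_le_mul_left _ (by omega)
    calc N ≤ 8 * L * (2 * M) := h1.le.trans h2
      _ = 16 * L * M := by ring
  have hN0 : 0 < N := lt_of_lt_of_le (by positivity) hNL
  have : NeZero N := ⟨hN0.ne'⟩
  set S := (A ×ˢ Finset.range M).image
      (fun p : ℤ × ℕ => (((p.1 - c) + 4 * L * p.2 : ℤ) : ZMod N)) with hS
  have hScard : S.card = A.card * M := image_card hL1 hM1 hMN hAL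
  have hSne : S.Nonempty := by
    rw [← Finset.card_pos, hScard]
    exact Nat.mul_pos hA.card_pos (by omega)
  have hSadd : ((S + S).card : ℝ) ≤ (2 * K) * S.card := by
    have h1 : (S + S).card ≤ (A + A).card * (2 * M) := image_add_card A
    calc ((S + S).card : ℝ) ≤ (A + A).card * (2 * M) := by exact_mod_cast h1
      _ ≤ (K * A.card) * (2 * M) := mul_le_mul_of_nonneg_right hK (by positivity)
      _ = (2 * K) * S.card := by rw [hScard]; push_cast; ring
  have hdens : (N : ℝ) ≤ ω N * S.card := by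
    have h1 := hb N hNb1
    have h2 : (M : ℝ) ≤ S.card := by
      rw [hScard]
      have : 1 ≤ A.card := hA.card_pos
      exact_mod_cast Nat.le_mul_of_pos_left M this
    calc (N : ℝ) ≤ 16 * L * M := by exact_mod_cast hMN2
      _ ≤ ω N * S.card := mul_le_mul h1 h2 (by positivity) (by
        have : (0 : ℝ) ≤ 16 * L := by positivity
        linarith)
  obtain ⟨d, B, ψ, H, T, h1, h2, h3, h4, h5, h6⟩ := hC N hN𝒩 (2 * K) S hSne hdens hSadd
  have hsym : Sym B := ⟨h2.1, h2.2.1, h2.2.2.2, h2.2.2.1.mono interior_subset⟩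
  obtain ⟨B', ψ', t, F, g1, g2, g3, g4, g5, g6⟩ := lift_cyc hL1 hM1 hMN hA hAL hsym
    (by rw [← hScard]; exact h4) h6
  obtain ⟨B'', hB'', hlat⟩ := fatten g1
  -- the bounds
  have hlog4K : 0 ≤ Real.log (4 * K) := Real.log_nonneg (by linarith)
  have hT : (T.card : ℝ) ≤ n * (2 * K) ^ n := h5.trans (hn (2 * K) (by linarith))
  have hd : (d : ℝ) ≤ n * Real.log (4 * K) := by
    have e : 2 * (2 * K) = 4 * K := by ring
    rw [e] at h1
    exact h1.trans (mul_le_mul_of_nonneg_right hnC hlog4K)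
  have h16 : (16 : ℝ) ^ d ≤ (4 * K) ^ (3 * n) := by
    have e2 : Real.log 16 ≤ 3 := by
      rw [show (16 : ℝ) = 2 ^ 4 by norm_num, Real.log_pow]
      have := Real.log_two_lt_d9
      push_cast
      linarith
    have e3 : Real.log ((16 : ℝ) ^ d) ≤ Real.log ((4 * K) ^ (3 * n)) := by
      rw [Real.log_pow, Real.log_pow]
      calc (d : ℝ) * Real.log 16 ≤ d * 3 := mul_le_mul_of_nonneg_left e2 (Nat.cast_nonneg _)
        _ ≤ (n * Real.log (4 * K)) * 3 := mul_le_mul_of_nonneg_right hd (by norm_num)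
        _ = ((3 * n : ℕ) : ℝ) * Real.log (4 * K) := by push_cast; ring
    exact (Real.log_le_log_iff (by positivity) (by positivity)).1 e3
  have hn1r : (1 : ℝ) ≤ n := by exact_mod_cast hn1
  have hτ1 : (1 : ℝ) ≤ n * (2 * K) ^ n := by
    have : (1 : ℝ) ≤ (2 * K) ^ n := one_le_pow₀ (by linarith)
    nlinarith
  have hσ1 : (1 : ℝ) ≤ (4 * K) ^ (3 * n) := one_le_pow₀ (by linarith)
  have h16' : (1 : ℝ) ≤ 16 ^ d := one_le_pow₀ (by norm_num)
  set M₀ : ℝ := 4 * (n * (2 * K) ^ n) * (4 * K) ^ (3 * n) with hM₀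
  have hτσ : (n * (2 * K) ^ n) * (16 : ℝ) ^ d ≤ (n * (2 * K) ^ n) * (4 * K) ^ (3 * n) :=
    mul_le_mul_of_nonneg_left h16 (by positivity)
  have hM₀1 : 1 ≤ M₀ := by
    have : (1 : ℝ) * 1 ≤ (n * (2 * K) ^ n) * (4 * K) ^ (3 * n) :=
      mul_le_mul hτ1 hσ1 zero_le_one (by positivity)
    rw [hM₀]
    linarith
  have hbigT : 2 * (T.card : ℝ) * 16 ^ d ≤ M₀ := by
    have e1 : (T.card : ℝ) * 16 ^ d ≤ (n * (2 * K) ^ n) * 16 ^ d :=
      mul_le_mul_of_nonneg_right hT (by positivity)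
    rw [hM₀]
    have : 0 ≤ (n * (2 * K) ^ n) * (4 * K) ^ (3 * n) := by positivity
    linarith
  have h4d : (4 : ℝ) ^ (d + 1) ≤ M₀ := by
    have e1 : (4 : ℝ) ^ d ≤ 16 ^ d := pow_le_pow_left₀ (by norm_num) (by norm_num) d
    have e2 : (1 : ℝ) * 16 ^ d ≤ (n * (2 * K) ^ n) * 16 ^ d :=
      mul_le_mul_of_nonneg_right hτ1 (by positivity)
    rw [pow_succ, hM₀]
    linarith
  have hAF : (A.card : ℝ) ≤ M₀ * F.card := by
    calc (A.card : ℝ) ≤ 2 * T.card * F.card := by exact_mod_cast g4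
      _ ≤ M₀ * F.card := by
        refine mul_le_mul_of_nonneg_right ?_ (Nat.cast_nonneg _)
        refine le_trans ?_ hbigT
        exact le_mul_of_one_le_right (by positivity) h16'
  have hvol : ((lat B'').ncard : ℝ) * Nat.card (⊥ : AddSubgroup ℤ) ≤ M₀ * A.card := by
    rw [hlat, AddSubgroup.card_bot, Nat.cast_one, mul_one]
    calc ((lat B').ncard : ℝ) ≤ ((2 * T.card * 16 ^ d * A.card : ℕ) : ℝ) := by exact_mod_cast g5
      _ = (2 * T.card * 16 ^ d) * A.card := by push_cast; ring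
      _ ≤ M₀ * A.card := mul_le_mul_of_nonneg_right hbigT (Nat.cast_nonneg _)
  obtain ⟨X, g, hD⟩ := data_of_cover (M := M₀) (A := A) (A' := F) (T := {t}) (ψ := ψ')
    (H := ⊥) g3 g2 hM₀1 hAF h4d hB'' inferInstance hvol (by simpa using hM₀1) (by
      intro a ha
      obtain ⟨w, hw, e⟩ := g6 a ha
      exact ⟨t, Finset.mem_singleton_self t, w, by rw [hlat]; exact hw, 0,
        AddSubgroup.zero_mem _, by rw [e, add_zero]⟩)
  have hfinal : M₀ ^ 2 ≤ n' * K ^ n' := by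
    have e1 : (2 * K) ^ n ≤ (4 * K) ^ n := pow_le_pow_left₀ (by positivity) (by linarith) n
    have e2 : M₀ ≤ 4 * n * (4 * K) ^ (4 * n) := by
      calc M₀ = 4 * n * ((2 * K) ^ n * (4 * K) ^ (3 * n)) := by rw [hM₀]; ring
        _ ≤ 4 * n * ((4 * K) ^ n * (4 * K) ^ (3 * n)) := by
          refine mul_le_mul_of_nonneg_left ?_ (by positivity)
          exact mul_le_mul_of_nonneg_right e1 (by positivity)
        _ = 4 * n * (4 * K) ^ (4 * n) := by rw [← pow_add]; congr 2; ring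
    calc M₀ ^ 2 ≤ (4 * n * (4 * K) ^ (4 * n)) ^ 2 := pow_le_pow_left₀ (by linarith) e2 2
      _ = (n' : ℝ) * K ^ (8 * n) := by
        rw [hn', mul_pow, mul_pow, ← pow_mul, mul_pow, show 4 * n * 2 = 8 * n by ring]
        push_cast
        ring
      _ ≤ n' * K ^ n' := mul_le_mul_of_nonneg_left (pow_le_pow_right₀ hK1 h8n) (Nat.cast_nonneg _)
  exact concl_of_data hA hK hn'1 (hD.mono hfinal)

end Pool.Agent.X164.CY
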